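import Pool.Agent.J4.H30.KB.Cor

/-!
# Limits for Bohr sets and coset progressions in `2A - 2A` and `K A - K A`

Q1 would give in `2A - 2A` a Bohr set with `O (ℓ)` frequencies and radius `c/ℓ`, `ℓ = log (1/α)`, hence a coset
progression of rank `O (ℓ)` with at least `exp (-O (ℓ log ℓ)) N` elements. We show that the order `ℓ log ℓ` in the
exponent is best possible for coset progressions of every rank up to `exp (ℓ ^ (1/4))`, and for Bohr sets and coset
progressions in all the sets `K A - K A`, `K` fixed: (1) below. Coset progressions with at least `α ^ B N` elements in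
`K A - K A` have rank at least a power of `1/α` in general: (2). Part (3) is the general form, from which the other
parts follow.

Proof (`Pool/Agent/J4/H30/KB`). The set consists of the integers whose digits in base `4 K t² + 1` form a vector
of a random convex body `{y ∈ [-t², t²] ^ d : |⟨u_j, y⟩| ≤ t d}`, `j ≤ J`, `J = exp (d / (2 t²)) / 4`, dilated and
fattened, modulo `N`. The bodies of this type were used in the starting files (`Pool/Agent/Y940/BogK`, `H842R3`,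
`TH934`), with `d = t ^ 4`, for Bohr sets only. For each fixed set `F` of more than `(32/t) ^ (d/2) M` elements of
`[-M, M]`, `M = (4 K t² + 1) ^ d`, half of the sign vectors `u` exclude that `F ⊆ K A - K A` (Sauer-Shelah), so the
union bound admits every family of less than `2 ^ J` sets `F` (`Core`). We take the family of all rational Bohr sets and of
all progressions of rank at most `exp (d / (4 t²))` in `[-K M, K M]`. A coset progression of `ℤ/N` in `K A - K A` is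
mapped to such a progression by the integer part of `x / (4 K w)`, which is additive on it (`Transfer`).
-/

set_option autoImplicit false

namespace Pool.Agent.Results.MP_169871_nt.CosetProgressionLimits

open Pool.Agent.J4.H30

/-- The Bohr set `B(Γ, ε) = {x ∈ ℤ/N : ‖γ x / N‖ ≤ ε for all γ ∈ Γ}`; the norm is the distance to the nearest
integer. -/
def bohr {N : ℕ} (Γ : Finset (ZMod N)) (ε : ℝ) : Set (ZMod N) :=
  {x | ∀ γ ∈ Γ, |((γ * x).val : ℝ) / (N : ℝ) - ((round (((γ * x).val : ℝ) / (N : ℝ)) : ℤ) : ℝ)| ≤ ε}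

/-- The coset progression `H + {n_1 a_1 + … + n_r a_r : |n_i| ≤ L_i}` of rank `r`; it need not be proper. -/
def cosetProg {N r : ℕ} (H : AddSubgroup (ZMod N)) (a : Fin r → ZMod N) (L : Fin r → ℕ) : Set (ZMod N) :=
  {x | ∃ h ∈ H, ∃ n : Fin r → ℤ, (∀ i, |n i| ≤ (L i : ℤ)) ∧ x = h + ∑ i, (n i : ZMod N) * a i}

/-- The set `K A - K A` of the differences of two sums of `K` elements of `A`. -/
def kAMinusKA {N : ℕ} (K : ℕ) (A : Finset (ZMod N)) : Set (ZMod N) :=
  {x | ∃ a b : Fin K → ZMod N, (∀ i, a i ∈ A) ∧ (∀ i, b i ∈ A) ∧ x = ∑ i, a i - ∑ i, b i}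

/-- **Limits for Bohr sets and coset progressions in `K A - K A`.** -/
theorem result :
    -- (1) logarithmic losses for all ranks up to `exp (ℓ ^ (1/4))`
    (∃ α₀ : ℝ, 0 < α₀ ∧ ∀ α : ℝ, 0 < α → α ≤ α₀ → ∀ K : ℕ, 1 ≤ K → Real.log (2 * K) ^ 8 ≤ Real.log (1 / α) →
      ∃ N₀ : ℕ, ∀ N : ℕ, N₀ ≤ N →
        ∃ A : Finset (ZMod N), α * N ≤ (A.card : ℝ) ∧ (A.card : ℝ) ≤ 2 * α * N ∧
          (∀ (Γ : Finset (ZMod N)) (ε : ℝ), 0 < ε → ε ≤ 1 / 2 → bohr Γ ε ⊆ kAMinusKA K A →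
            Real.log (1 / α) * Real.log (Real.log (1 / α)) / (120 * Real.log (2 * K)) ≤
              Γ.card * Real.log (1 / ε)) ∧
          ∀ (r : ℕ) (H : AddSubgroup (ZMod N)) (a : Fin r → ZMod N) (L : Fin r → ℕ),
            (r : ℝ) ≤ Real.exp (Real.log (1 / α) ^ (1 / 4 : ℝ)) → cosetProg H a L ⊆ kAMinusKA K A →
            ((cosetProg H a L).ncard : ℝ) ≤
              Real.exp (-(Real.log (1 / α) * Real.log (Real.log (1 / α)) / (40 * Real.log (2 * K)))) * N) ∧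
    -- (2) coset progressions of polynomial density have polynomial rank
    (∀ K : ℕ, 1 ≤ K → ∀ B : ℝ, ∃ c α₀ : ℝ, 0 < c ∧ 0 < α₀ ∧ ∀ α : ℝ, 0 < α → α ≤ α₀ →
      ∃ N₀ : ℕ, ∀ N : ℕ, N₀ ≤ N →
        ∃ A : Finset (ZMod N), α * N ≤ (A.card : ℝ) ∧ (A.card : ℝ) ≤ 2 * α * N ∧
          ∀ (r : ℕ) (H : AddSubgroup (ZMod N)) (a : Fin r → ZMod N) (L : Fin r → ℕ),
            cosetProg H a L ⊆ kAMinusKA K A → α ^ B * N ≤ ((cosetProg H a L).ncard : ℝ) → α ^ (-c) < (r : ℝ)) ∧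
    -- (3) general form
    ∀ K R : ℕ, 1 ≤ K → 2 ≤ R → ∀ α : ℝ, 0 < α →
      2 ^ 31 * (R : ℝ) ^ 2 * Real.log (2 * K) * Real.log (2 * K * R) ≤ Real.log (1 / α) →
      ∃ N₀ : ℕ, ∀ N : ℕ, N₀ ≤ N →
        ∃ A : Finset (ZMod N), α * N ≤ (A.card : ℝ) ∧ (A.card : ℝ) ≤ 2 * α * N ∧
          (∀ (Γ : Finset (ZMod N)) (ε : ℝ), 0 < ε → ε ≤ 1 / 2 → bohr Γ ε ⊆ kAMinusKA K A →
            Real.log (1 / α) * Real.log R / (24 * Real.log (2 * K)) ≤ Γ.card * Real.log (1 / ε)) ∧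
          ∀ (r : ℕ) (H : AddSubgroup (ZMod N)) (a : Fin r → ZMod N) (L : Fin r → ℕ),
            (r : ℝ) ≤ Real.exp (Real.log (1 / α) / (2 ^ 31 * R ^ 2 * Real.log (2 * K))) →
            cosetProg H a L ⊆ kAMinusKA K A →
            ((cosetProg H a L).ncard : ℝ) ≤
              Real.exp (-(Real.log (1 / α) * Real.log R / (8 * Real.log (2 * K)))) * N := by
  refine ⟨?_, fun K hK B => ?_, fun K R hK hR α hα hℓ => ?_⟩
  · obtain ⟨α₀, hα₀, h⟩ := KB.log_version
    refine ⟨α₀, hα₀, fun α hα hα' K hK hKℓ => ?_⟩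
    obtain ⟨N₀, hN₀⟩ := h α hα hα' K hK hKℓ
    refine ⟨N₀, fun N hN => ?_⟩
    obtain ⟨A, h1, h2, h3, h4⟩ := hN₀ N hN
    exact ⟨A, h1, h2, fun Γ ε hε hε2 hsub => h3 Γ ε hε hε2 fun x hx => hsub hx,
      fun r H a L hr hsub => h4 r H a L hr hsub⟩
  · obtain ⟨c, α₀, hc, hα₀, h⟩ := KB.exp_version K hK B
    refine ⟨c, α₀, hc, hα₀, fun α hα hα' => ?_⟩
    obtain ⟨N₀, hN₀⟩ := h α hα hα'
    refine ⟨N₀, fun N hN => ?_⟩
    obtain ⟨A, h1, h2, h3⟩ := hN₀ N hN
    exact ⟨A, h1, h2, fun r H a L hsub hbig => h3 r H a L hsub hbig⟩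
  · obtain ⟨N₀, hN₀⟩ := KB.general K R hK hR α hα hℓ
    refine ⟨N₀, fun N hN => ?_⟩
    obtain ⟨A, h1, h2, h3, h4⟩ := hN₀ N hN
    exact ⟨A, h1, h2, fun Γ ε hε hε2 hsub => h3 Γ ε hε hε2 fun x hx => hsub hx,
      fun r H a L hr hsub => h4 r H a L hr hsub⟩

end Pool.Agent.Results.MP_169871_nt.CosetProgressionLimits
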