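import Pool.Agent.J4.H30.CD.R2

/-!
# Bohr sets in `2A - 2A` for sets that are dense on a translate of a proper coset progression

Let `P` be a proper coset progression of rank `d` in `ℤ/N` and let `A` contain at least a proportion `δ` of some
translate of `P`. For every `ε > 0` there is a constant `C` such that for all `R ≥ C (d + log (4/δ))` the set `2A - 2A`
contains a Bohr set of radius `1 / (8R)` with at most
`C (d + log (4/δ) ^ (3 + ε) + log (N/|P|) / log R)` frequencies.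

With `R` of order `ℓ = log (1/α)` this is the conclusion of Q1 (`q1` below) whenever `d = O (ℓ)`,
`log (N/|P|) = O (ℓ log (2 + ℓ))` and `log (4/δ) ^ (3 + ε) = O (ℓ)`. The starting result `DenseOnProgressions` has the
condition `1/δ² = O (ℓ)`, so a proportion `δ ≥ c ℓ ^ (-1/2)` was needed, and now `δ ≥ exp (- c ℓ ^ (1/(3 + ε)))` is
enough.

The proof (`Pool/Agent/J4/H30/CD`): `V` is the part of `A` in the translate of `P`, `S` its densest part in a
translate of the shorter progression `P'` (lengths divided by `4 (d + 1)`), `W = V + S`, so `|W| ≤ (2/δ) |V|`; the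
almost-periods are taken in a still shorter progression `P''`, whose small multiples do not enlarge `S` by more than the
factor `4/δ`. The iterated Croot-Sisask argument (`Mom2`, `Ent`, `Stage`, `Iter`) gives a set `T ⊆ P''` of
relative density `exp (- C log (4/δ) ^ (3 + ε))`, and `Fou2` and the local form of Chang's theorem (`Loc`) give the
Bohr set.
-/

set_option autoImplicit false

namespace Pool.Agent.Results.MP_169871_nt.DenseOnCosetProg

open Pool.Agent.J4.H30 Pool.Agent.N142 Pool.Agent.TH858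
open scoped Pointwise

/-- The Bohr set `B(Γ, ε) = {x ∈ ℤ/N : ‖γ x / N‖ ≤ ε for all γ ∈ Γ}`; the norm is the distance to the nearest
integer. -/
def bohr {N : ℕ} (Γ : Finset (ZMod N)) (ε : ℝ) : Set (ZMod N) :=
  {x | ∀ γ ∈ Γ, |((γ * x).val : ℝ) / (N : ℝ) - ((round (((γ * x).val : ℝ) / (N : ℝ)) : ℤ) : ℝ)| ≤ ε}

/-- The coset progression `H + {n_1 a_1 + … + n_d a_d : |n_i| ≤ L_i}`. -/
def cosetProg {N d : ℕ} (H : AddSubgroup (ZMod N)) (a : Fin d → ZMod N) (L : Fin d → ℕ) : Set (ZMod N) :=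
  {x | ∃ h ∈ H, ∃ n : Fin d → ℤ, (∀ i, |n i| ≤ L i) ∧ x = h + ∑ i, (n i : ZMod N) * a i}

/-- The coset progression is proper: different coefficients give different cosets of `H`. -/
def Proper {N d : ℕ} (H : AddSubgroup (ZMod N)) (a : Fin d → ZMod N) (L : Fin d → ℕ) : Prop :=
  ∀ n n' : Fin d → ℤ, (∀ i, |n i| ≤ L i) → (∀ i, |n' i| ≤ L i) →
    (∑ i, (n i : ZMod N) * a i) - (∑ i, (n' i : ZMod N) * a i) ∈ H → n = n'

/-- The set `2A - 2A`. -/
def twoAMinusTwoA {N : ℕ} (A : Finset (ZMod N)) : Set (ZMod N) :=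
  {x | ∃ a₁ ∈ A, ∃ a₂ ∈ A, ∃ a₃ ∈ A, ∃ a₄ ∈ A, x = a₁ + a₂ - a₃ - a₄}

/-- The part of `A` in the translate `t + P`. -/
def part {N : ℕ} (A : Finset (ZMod N)) (t : ZMod N) (P : Set (ZMod N)) : Set (ZMod N) :=
  {x | x ∈ A ∧ x - t ∈ P}

theorem cosetProg_eq {N : ℕ} [NeZero N] {d : ℕ} (H : AddSubgroup (ZMod N)) (a : Fin d → ZMod N)
    (L : Fin d → ℕ) : cosetProg H a L = (CD.HP H a L : Set (ZMod N)) := by
  ext x
  rw [Finset.mem_coe, CD.mem_HP]
  constructor
  · rintro ⟨h, hh, n, hn, rfl⟩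
    refine ⟨n, hn, ?_⟩
    unfold GP.ev
    simpa using hh
  · rintro ⟨n, hn, hx⟩
    refine ⟨x - GP.ev a n, hx, n, hn, ?_⟩
    unfold GP.ev
    ring

/-- **Sets that are dense on a translate of a proper coset progression**: for every `ε > 0` there is `C` such that, if
`P = cosetProg H a L` is a proper coset progression of rank `d`, `|A ∩ (t + P)| ≥ δ |P|` and
`R ≥ C (d + log (4/δ))`, the set `2A - 2A` contains a Bohr set of radius `1 / (8R)` with at most
`C (d + log (4/δ) ^ (3 + ε) + log (N/|P|) / log R)` frequencies. -/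
theorem result (ε : ℝ) (hε : 0 < ε) : ∃ C : ℝ, 1 ≤ C ∧ ∀ (N : ℕ), 0 < N → ∀ (A : Finset (ZMod N))
    (H : AddSubgroup (ZMod N)) (d : ℕ) (a : Fin d → ZMod N) (L : Fin d → ℕ), Proper H a L →
    ∀ (t : ZMod N) (δ : ℝ), 0 < δ →
    δ * ((cosetProg H a L).ncard : ℝ) ≤ ((part A t (cosetProg H a L)).ncard : ℝ) →
    ∀ R : ℕ, C * (d + Real.log (4 / δ)) ≤ R →
    ∃ Γ : Finset (ZMod N), (Γ.card : ℝ) ≤
        C * (d + Real.log (4 / δ) ^ (3 + ε) +
          Real.log ((N : ℝ) / ((cosetProg H a L).ncard : ℝ)) / Real.log R) ∧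
      bohr Γ (1 / (8 * R)) ⊆ twoAMinusTwoA A := by
  obtain ⟨C, hC, h⟩ := Pool.Agent.J4.H30.CD.r2 ε hε
  refine ⟨C, hC, fun N hN A H d a L hP t δ hδ hA R hR => ?_⟩
  have : NeZero N := ⟨hN.ne'⟩
  have hcard : (cosetProg H a L).ncard = (CD.HP H a L).card := by rw [cosetProg_eq, Set.ncard_coe_finset]
  classical
  have hpart : part A t (cosetProg H a L) =
      ((A.filter fun x => x - t ∈ CD.HP H a L : Finset (ZMod N)) : Set (ZMod N)) := by
    ext x
    rw [Finset.mem_coe, Finset.mem_filter]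
    unfold part
    rw [cosetProg_eq]
    rfl
  rw [hpart, Set.ncard_coe_finset, hcard] at hA
  rw [hcard]
  obtain ⟨Γ, h1, h2⟩ := h N A H d a L t δ R (fun m m' hm hm' hmm => hP m m' hm hm' hmm) hδ
    (hA.trans (le_of_eq (by congr 2))) hR
  exact ⟨Γ, h1, fun y hy => h2 y fun g hg => hy g hg⟩

/-- The conclusion of Q1 for the sets that are dense, with a proportion `δ ≥ exp (- c ℓ ^ (1/(3 + ε)))`, on a translate
of a proper coset progression of rank `O (ℓ)` and density `exp (- O (ℓ log (2 + ℓ)))`. -/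
theorem q1 (ε D : ℝ) (hε : 0 < ε) (hD : 1 ≤ D) : ∃ C : ℝ, 1 ≤ C ∧ ∀ (N : ℕ), 0 < N → ∀ (A : Finset (ZMod N)),
    A.Nonempty → (A.card : ℝ) / (N : ℝ) ≤ 1 / 2 →
    ∀ (H : AddSubgroup (ZMod N)) (d : ℕ) (a : Fin d → ZMod N) (L : Fin d → ℕ), Proper H a L →
    ∀ (t : ZMod N) (δ : ℝ), 0 < δ →
    δ * ((cosetProg H a L).ncard : ℝ) ≤ ((part A t (cosetProg H a L)).ncard : ℝ) →
    (d : ℝ) ≤ D * Real.log ((N : ℝ) / (A.card : ℝ)) →
    Real.log (4 / δ) ^ (3 + ε) ≤ D * Real.log ((N : ℝ) / (A.card : ℝ)) → 1 ≤ Real.log (4 / δ) →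
    Real.log ((N : ℝ) / ((cosetProg H a L).ncard : ℝ)) ≤
      D * (Real.log ((N : ℝ) / (A.card : ℝ)) * Real.log (2 + Real.log ((N : ℝ) / (A.card : ℝ)))) →
    ∃ (Γ : Finset (ZMod N)) (ρ : ℝ), 0 < ρ ∧ (Γ.card : ℝ) ≤ C * Real.log ((N : ℝ) / (A.card : ℝ)) ∧
      1 / (C * Real.log ((N : ℝ) / (A.card : ℝ))) ≤ ρ ∧ bohr Γ ρ ⊆ twoAMinusTwoA A := by
  obtain ⟨C, hC, h⟩ := result ε hε
  refine ⟨80 * (C * D), by nlinarith, ?_⟩
  intro N hN A hA hα H d a L hP t δ hδ hAP hd hδ3 hδ1 hdens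
  have hAc : (0 : ℝ) < A.card := by exact_mod_cast hA.card_pos
  have hNpos : (0 : ℝ) < N := by exact_mod_cast hN
  obtain ⟨x, hx⟩ : ∃ x : ℝ, x = Real.log ((N : ℝ) / (A.card : ℝ)) := ⟨_, rfl⟩
  rw [← hx] at hd hδ3 hdens ⊢
  have hx2 : Real.log 2 ≤ x := by
    rw [hx]
    apply Real.log_le_log (by norm_num)
    rw [div_le_iff₀ hNpos] at hα
    rw [le_div_iff₀ hAc]
    linarith
  have hlog2 := Real.log_two_gt_d9
  have hx0 : 0 < x := by linarith
  have hCD : 1 ≤ C * D := by nlinarith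
  have hlδ : Real.log (4 / δ) ≤ D * x := by
    have h1 : Real.log (4 / δ) ^ (1 : ℝ) ≤ Real.log (4 / δ) ^ (3 + ε) :=
      Real.rpow_le_rpow_of_exponent_le hδ1 (by linarith)
    rw [Real.rpow_one] at h1
    linarith
  obtain ⟨R, hR⟩ : ∃ R : ℕ, R = ⌈2 * (C * D) * x + 2 + x⌉₊ := ⟨_, rfl⟩
  have hRge : 2 * (C * D) * x + 2 + x ≤ R := by rw [hR]; exact Nat.le_ceil _
  have hRle : (R : ℝ) ≤ 5 * (C * D) * x + 2 * x + 2 * x := by
    have h1 := (Nat.ceil_lt_add_one (by positivity : 0 ≤ 2 * (C * D) * x + 2 + x)).le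
    rw [← hR] at h1
    nlinarith
  have hR0 : (0 : ℝ) < R := by
    have : 0 < 2 * (C * D) * x := by positivity
    linarith
  obtain ⟨Γ, hΓ1, hΓ2⟩ := h N hN A H d a L hP t δ hδ hAP R (by nlinarith)
  refine ⟨Γ, 1 / (8 * R), by positivity, ?_, ?_, hΓ2⟩
  · have hlx : 0 < Real.log (2 + x) := Real.log_pos (by linarith)
    have hlR : Real.log (2 + x) ≤ Real.log R := by
      apply Real.log_le_log (by linarith)
      have : 0 < 2 * (C * D) * x := by positivity
      linarith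
    have h2 : Real.log ((N : ℝ) / ((cosetProg H a L).ncard : ℝ)) / Real.log R ≤ D * x := by
      rw [div_le_iff₀ (by linarith)]
      calc Real.log ((N : ℝ) / ((cosetProg H a L).ncard : ℝ)) ≤ D * (x * Real.log (2 + x)) := hdens
        _ ≤ D * (x * Real.log R) := by gcongr
        _ = D * x * Real.log R := by ring
    calc (Γ.card : ℝ) ≤ C * (d + Real.log (4 / δ) ^ (3 + ε) +
          Real.log ((N : ℝ) / ((cosetProg H a L).ncard : ℝ)) / Real.log R) := hΓ1
      _ ≤ C * (D * x + D * x + D * x) := by gcongr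
      _ = 3 * (C * D) * x := by ring
      _ ≤ 80 * (C * D) * x := by
          have : 0 ≤ C * D * x := by positivity
          linarith
  · apply one_div_le_one_div_of_le (by positivity)
    have h3 : x ≤ C * D * x := by nlinarith
    linarith [hRle, mul_pos (by positivity : 0 < C * D) hx0]

end Pool.Agent.Results.MP_169871_nt.DenseOnCosetProg
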