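import Pool.Agent.J4.H30.CD.R1

/-!
# Bohr sets in `K A - K A` for all `K ≥ 2`

For `A ⊆ ℤ/N` of density `α ≤ 1/2` put `ℓ = log (1/α)`. For every `ε > 0` there is a constant `C` such that for all
`K ≥ 2` the set `K A - K A` contains a Bohr set with at most `C ℓ (1 + ℓ/K) ^ (2 + ε)` frequencies and radius at
least `1 / (C ℓ)`. For `K = 2` this is a Bohr set with `O (ℓ ^ (3 + ε))` frequencies in `2A - 2A`, for `K ≥ ℓ` the
conclusion of Q1 with `K A - K A` in place of `2A - 2A`; the theorem interpolates between the two. In all cases the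
radius is the one of Q1.

The proof (`Pool/Agent/J4/H30/CD`):
* `i` is chosen by the pigeonhole principle so that `|(i+1) A| ≤ κ |i A|`, `κ = exp (ℓ / (K-1))`. Put `V = i A`,
  `S = A`, `W = (i+1) A` and let `F(x)` be the proportion of the `s ∈ S` with `x + s ∈ W`.
* `Mom2`, `Stage`: the Croot-Sisask argument for the function `F`, with `S` replaced by the measures
  `μ_S * μ_{T-T} * ... * μ_{T-T}`, where `T` is the set of almost-periods found before. The number of shifts is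
  controlled by the entropies of these measures (`Ent`): one of the first `l` measures has entropy increment at most
  `ℓ / l`. After `O_ε (1)` stages (`Iter`) one has a set `T ⊆ A` of density `exp (- C ℓ m ^ (2 + ε))`,
  `m = O (1 + ℓ / K)`, such that `F` is almost invariant under the sums of `4 m` differences of elements of `T`, with
  an exceptional set of size `exp (- 4 m) |W|`.
* `Fou2`: the function `1_V * 1_{-V} * μ_{T-T} * ... * μ_{T-T}` is positive definite and its value at `0` is at least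
  `|V| / (2 κ)`, so it is at least `|V| / (4 κ)` at every `y` at which the characters of the spectrum of `T` are
  `1/4`-close to `1`; because of the small exceptional set this gives `y ∈ W - S - V`. So no loss `1/κ` in the radius
  occurs here.
* Chang's theorem.
-/

set_option autoImplicit false

namespace Pool.Agent.Results.MP_169871_nt.FewSummands

open Pool.Agent.J4.H30 Pool.Agent.TH858
open scoped Pointwise

/-- The Bohr set `B(Γ, ε) = {x ∈ ℤ/N : ‖γ x / N‖ ≤ ε for all γ ∈ Γ}`; the norm is the distance to the nearest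
integer. -/
def bohr {N : ℕ} (Γ : Finset (ZMod N)) (ε : ℝ) : Set (ZMod N) :=
  {x | ∀ γ ∈ Γ, |((γ * x).val : ℝ) / (N : ℝ) - ((round (((γ * x).val : ℝ) / (N : ℝ)) : ℤ) : ℝ)| ≤ ε}

/-- The set `K A - K A` of the differences of two sums of `K` elements of `A`. -/
def kAMinusKA {N : ℕ} (K : ℕ) (A : Finset (ZMod N)) : Set (ZMod N) :=
  {x | ∃ a b : Fin K → ZMod N, (∀ i, a i ∈ A) ∧ (∀ i, b i ∈ A) ∧ x = ∑ i, a i - ∑ i, b i}

/-- The set `2A - 2A`. -/
def twoAMinusTwoA {N : ℕ} (A : Finset (ZMod N)) : Set (ZMod N) :=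
  {x | ∃ a₁ ∈ A, ∃ a₂ ∈ A, ∃ a₃ ∈ A, ∃ a₄ ∈ A, x = a₁ + a₂ - a₃ - a₄}

/-- The logarithm `log (1/α)`, where `α = |A| / N` is the density of `A ⊆ ℤ/N`. -/
noncomputable def ell {N : ℕ} (A : Finset (ZMod N)) : ℝ := Real.log ((N : ℝ) / (A.card : ℝ))

/-- sums of `n` elements of `A` -/
def SumOf {N : ℕ} (A : Finset (ZMod N)) (n : ℕ) (x : ZMod N) : Prop :=
  ∃ a : Fin n → ZMod N, (∀ i, a i ∈ A) ∧ x = ∑ i, a i

theorem sumOf_succ {N : ℕ} (A : Finset (ZMod N)) (n : ℕ) (x a₀ : ZMod N) (h : SumOf A n x) (h₀ : a₀ ∈ A) :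
    SumOf A (n + 1) (x + a₀) := by
  obtain ⟨a, ha, rfl⟩ := h
  refine ⟨Fin.snoc (α := fun _ => ZMod N) a a₀, fun i => ?_, ?_⟩
  · refine Fin.lastCases ?_ (fun j => ?_) i
    · simpa using h₀
    · simpa using ha j
  · rw [Fin.sum_univ_castSucc]
    simp

theorem sumOf_it {N : ℕ} (A : Finset (ZMod N)) (j : ℕ) (w : ZMod N) (h : w ∈ CD.it A j) : SumOf A (j + 1) w := by
  induction j generalizing w with
  | zero =>
    refine ⟨fun _ => w, fun _ => h, ?_⟩
    simp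
  | succ j ih =>
    obtain ⟨w', hw', a₀, h₀, rfl⟩ := Finset.mem_add.1 h
    exact sumOf_succ A (j + 1) w' a₀ (ih w' hw') h₀

theorem diff_mem {N : ℕ} (A : Finset (ZMod N)) (hA : A.Nonempty) (n K : ℕ) (hnK : n ≤ K) (w w' : ZMod N)
    (h : SumOf A n w) (h' : SumOf A n w') : w - w' ∈ kAMinusKA K A := by
  obtain ⟨a₀, h₀⟩ := hA
  have key : ∀ k : ℕ, n ≤ k → ∃ v v' : ZMod N, SumOf A k v ∧ SumOf A k v' ∧ w - w' = v - v' := by
    intro k hk
    induction k, hk using Nat.le_induction with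
    | base => exact ⟨w, w', h, h', rfl⟩
    | succ k _ ih =>
      obtain ⟨v, v', hv, hv', e⟩ := ih
      exact ⟨v + a₀, v' + a₀, sumOf_succ A k v a₀ hv h₀, sumOf_succ A k v' a₀ hv' h₀, by rw [e]; ring⟩
  obtain ⟨v, v', ⟨a, ha, rfl⟩, ⟨b, hb, rfl⟩, e⟩ := key K hnK
  exact ⟨a, b, ha, hb, e⟩

/-- **Bohr sets in `K A - K A`, `K ≥ 2`**: for every `ε > 0` there is `C` such that for every `A ⊆ ℤ/N` of density
`α ≤ 1/2`, `ℓ = log (1/α)`, and every `K ≥ 2` the set `K A - K A` contains a Bohr set with at most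
`C ℓ (1 + ℓ/K) ^ (2 + ε)` frequencies and radius at least `1 / (C ℓ)`. -/
theorem result (ε : ℝ) (hε : 0 < ε) : ∃ C : ℝ, 1 ≤ C ∧ ∀ N : ℕ, 0 < N → ∀ A : Finset (ZMod N), A.Nonempty →
    (A.card : ℝ) / (N : ℝ) ≤ 1 / 2 → ∀ K : ℕ, 2 ≤ K → ∃ (Γ : Finset (ZMod N)) (ρ : ℝ), 0 < ρ ∧
      (Γ.card : ℝ) ≤ C * (ell A * (1 + ell A / K) ^ (2 + ε)) ∧ 1 / (C * ell A) ≤ ρ ∧
      bohr Γ ρ ⊆ kAMinusKA K A := by
  obtain ⟨C, hC, h⟩ := CD.r1 ε hε
  have hC0 : 0 < C := by linarith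
  refine ⟨4 * C, by linarith, fun N hN A hA hα K hK => ?_⟩
  have : NeZero N := ⟨hN.ne'⟩
  have hAc : (0 : ℝ) < A.card := by exact_mod_cast hA.card_pos
  have hNpos : (0 : ℝ) < N := by exact_mod_cast hN
  have hx2 : Real.log 2 ≤ ell A := by
    unfold ell
    apply Real.log_le_log (by norm_num)
    rw [div_le_iff₀ hNpos] at hα
    rw [le_div_iff₀ hAc]
    linarith
  have hlog2 := Real.log_two_gt_d9
  have hx0 : 0 < ell A := by linarith
  obtain ⟨Γ, R, hR, h1, h2, h3⟩ := h N A hA hα K hK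
  have hR0 : (0 : ℝ) < R := by exact_mod_cast hR
  refine ⟨Γ, 1 / (4 * R), by positivity, h1.trans ?_, ?_, fun y hy => ?_⟩
  · have : 0 ≤ ell A * (1 + ell A / K) ^ (2 + ε) := by positivity
    have h4 : Real.log (N / A.card) * (1 + Real.log (N / A.card) / K) ^ (2 + ε) =
        ell A * (1 + ell A / K) ^ (2 + ε) := rfl
    rw [h4]
    nlinarith
  · apply one_div_le_one_div_of_le (by positivity)
    have h2' : (R : ℝ) ≤ C * ell A := h2
    linarith
  · obtain ⟨j, hj, w, hw, w', hw', rfl⟩ := h3 y fun g hg => hy g hg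
    exact diff_mem A hA (j + 1) K hj w w' (sumOf_it A j w hw) (sumOf_it A j w' hw')

/-- The case `K = 2`: a Bohr set with `O (ℓ ^ (3 + ε))` frequencies and radius at least `1 / (C ℓ)` in `2A - 2A`. -/
theorem two_summands (ε : ℝ) (hε : 0 < ε) : ∃ C : ℝ, 1 ≤ C ∧ ∀ N : ℕ, 0 < N → ∀ A : Finset (ZMod N), A.Nonempty →
    (A.card : ℝ) / (N : ℝ) ≤ 1 / 2 → ∃ (Γ : Finset (ZMod N)) (ρ : ℝ), 0 < ρ ∧
      (Γ.card : ℝ) ≤ C * ell A ^ (3 + ε) ∧ 1 / (C * ell A) ≤ ρ ∧ bohr Γ ρ ⊆ twoAMinusTwoA A := by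
  obtain ⟨C, hC, h⟩ := result ε hε
  have h2ε : (1 : ℝ) ≤ 2 ^ (2 + ε) := Real.one_le_rpow (by norm_num) (by linarith)
  have hC0 : 0 < C := by linarith
  refine ⟨C * 2 ^ (2 + ε), by nlinarith, fun N hN A hA hα => ?_⟩
  have hAc : (0 : ℝ) < A.card := by exact_mod_cast hA.card_pos
  have hNpos : (0 : ℝ) < N := by exact_mod_cast hN
  have hx2 : Real.log 2 ≤ ell A := by
    unfold ell
    apply Real.log_le_log (by norm_num)
    rw [div_le_iff₀ hNpos] at hα
    rw [le_div_iff₀ hAc]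
    linarith
  have hlog2 := Real.log_two_gt_d9
  have hx0 : 0 < ell A := by linarith
  obtain ⟨Γ, ρ, hρ, h1, h2, h3⟩ := h N hN A hA hα 2 le_rfl
  refine ⟨Γ, ρ, hρ, h1.trans ?_, le_trans ?_ h2, fun y hy => ?_⟩
  · have h4 : (1 + ell A / ((2 : ℕ) : ℝ)) ^ (2 + ε) ≤ 2 ^ (2 + ε) * ell A ^ (2 + ε) := by
      rw [← Real.mul_rpow (by norm_num) hx0.le]
      apply Real.rpow_le_rpow (by positivity) _ (by linarith)
      push_cast
      linarith
    have h5 : ell A ^ (3 + ε) = ell A * ell A ^ (2 + ε) := by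
      rw [show (3 + ε : ℝ) = 1 + (2 + ε) by ring, Real.rpow_add hx0, Real.rpow_one]
    rw [h5]
    calc C * (ell A * (1 + ell A / ((2 : ℕ) : ℝ)) ^ (2 + ε))
        ≤ C * (ell A * (2 ^ (2 + ε) * ell A ^ (2 + ε))) := by gcongr
      _ = C * 2 ^ (2 + ε) * (ell A * ell A ^ (2 + ε)) := by ring
  · apply one_div_le_one_div_of_le (by positivity)
    have : C * 1 ≤ C * 2 ^ (2 + ε) := by gcongr
    nlinarith
  · obtain ⟨a, b, ha, hb, e⟩ := h3 hy
    refine ⟨a 0, ha 0, a 1, ha 1, b 0, hb 0, b 1, hb 1, ?_⟩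
    rw [e, Fin.sum_univ_two, Fin.sum_univ_two]
    ring

end Pool.Agent.Results.MP_169871_nt.FewSummands
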