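import Pool.Agent.J4.H30.CD.R3
import Pool.Agent.N142.CD.FR

/-!
# Q1 for sets of doubling up to `exp ((log (1/α)) ^ (1/3 - ε))`

Let `A ⊆ ℤ/N` have density `α ≤ 1/2` and `|A + A| ≤ K |A|`, `ℓ = log (1/α)`. For every `ε > 0` the set `2A - 2A`
contains a Bohr set with at most `C (ℓ / log (2 + ℓ) + log (2K) ^ (3 + ε))` frequencies and radius at least
`1 / (C ℓ)`, where `C` depends on `ε` only. So the conclusion of Q1 holds for all the sets with
`log (2K) ^ (3 + ε) ≤ C ℓ`. The starting result `ModerateDoubling` has the number of frequencies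
`C (ℓ + log (2K) ^ 5) / log (2 + ℓ)`, so there the condition is `log (2K) ^ 5 ≤ C ℓ log (2 + ℓ)`.

The proof (`Pool/Agent/J4/H30/CD`):
* `Mom2`, `Ent`, `Stage`, `Iter`: an iterated form of the Croot-Sisask argument for `V = S = A`, `W = A + A` and the
  function `F(x)`, the proportion of the `s ∈ S` with `x + s ∈ W`. In the `i`-th stage `S` is replaced by a measure
  `μ_S * μ_{T-T} * ... * μ_{T-T}` with the set `T` of almost-periods of the stage before; the number of shifts is
  controlled by the entropies of these measures. The result is a set `T ⊆ A` of relative density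
  `exp (- C log (2K) ^ (3 + ε))` such that `F` is almost invariant under the sums of `O (log (2K))` differences of
  elements of `T`.
* `Fou2`: the Fourier transform of the positive definite function `1_A * 1_{-A} * μ_{T-T} * ... * μ_{T-T}`; only the
  accuracy `1/4` is needed on the spectrum of `T` (in `ModerateDoubling` it is `1/K`, which costs a factor `log K` in the
  number of frequencies).
* `Loc`: as in `ModerateDoubling`, the near-polynomial Freiman-Ruzsa theorem of the starting library `H112R2` gives a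
  proper coset progression `X` of rank `O (log (2K))` such that a translate of `X` contains a large part `T₁` of `T`, the
  local form of Chang's theorem is applied to `T₁`, and the starting library `TH858` to a short multiple of `X`.
-/

set_option autoImplicit false

namespace Pool.Agent.Results.MP_169871_nt.LargerDoubling

open Pool.Agent.J4.H30 Pool.Agent.N142
open scoped Pointwise

/-- The Bohr set `B(Γ, ε) = {x ∈ ℤ/N : ‖γ x / N‖ ≤ ε for all γ ∈ Γ}`; the norm is the distance to the nearest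
integer. -/
def bohr {N : ℕ} (Γ : Finset (ZMod N)) (ε : ℝ) : Set (ZMod N) :=
  {x | ∀ γ ∈ Γ, |((γ * x).val : ℝ) / (N : ℝ) - ((round (((γ * x).val : ℝ) / (N : ℝ)) : ℤ) : ℝ)| ≤ ε}

/-- The set `2A - 2A`. -/
def twoAMinusTwoA {N : ℕ} (A : Finset (ZMod N)) : Set (ZMod N) :=
  {x | ∃ a₁ ∈ A, ∃ a₂ ∈ A, ∃ a₃ ∈ A, ∃ a₄ ∈ A, x = a₁ + a₂ - a₃ - a₄}

/-- `log (1/α)` for the density `α = |A| / N` -/
noncomputable def logDens {N : ℕ} (A : Finset (ZMod N)) : ℝ := Real.log ((N : ℝ) / (A.card : ℝ))

/-- **Bohr sets in `2A - 2A` for sets of doubling `K`**: for every `ε > 0` there is `C` such that for every `A ⊆ ℤ/N` of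
density `α ≤ 1/2` with `|A + A| ≤ K |A|` the set `2A - 2A` contains a Bohr set with at most
`C (ℓ / log (2 + ℓ) + log (2K) ^ (3 + ε))` frequencies and radius at least `1 / (C ℓ)`, `ℓ = log (1/α)`. -/
theorem result (ε : ℝ) (hε : 0 < ε) : ∃ C : ℝ, 1 ≤ C ∧ ∀ (N : ℕ), 0 < N → ∀ (A : Finset (ZMod N)) (K : ℝ),
    A.Nonempty → (A.card : ℝ) / (N : ℝ) ≤ 1 / 2 → 1 ≤ K → ((A + A).card : ℝ) ≤ K * A.card →
    ∃ (Γ : Finset (ZMod N)) (ρ : ℝ), 0 < ρ ∧
      (Γ.card : ℝ) ≤ C * (logDens A / Real.log (2 + logDens A) + Real.log (2 * K) ^ (3 + ε)) ∧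
      1 / (C * logDens A) ≤ ρ ∧ bohr Γ ρ ⊆ twoAMinusTwoA A := by
  obtain ⟨C, hC, h⟩ := CD.r3 Pool.Agent.N142.CD.t_FR ε hε
  refine ⟨C, hC, fun N hN A K hA hα hK hAA => ?_⟩
  have : NeZero N := ⟨hN.ne'⟩
  obtain ⟨Γ, ρ, h1, h2, h3, h4⟩ := h N A K hA hα hK hAA
  exact ⟨Γ, ρ, h1, h2, h3, fun y hy => h4 y fun g hg => hy g hg⟩

end Pool.Agent.Results.MP_169871_nt.LargerDoubling
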